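import Pool.Agent.Helper31.RG.Goals

/-!
# Range concatenation grammars: the geometry of the potential (part GEO)
-/

namespace Pool.Agent.Helper22.RG.PkGEO

open Pool.Agent.Helper65.LinSpace Pool.Agent.Helper78 Pool.Agent.Helper78.Mpc
  Pool.Agent.Helper78.Xor Pool.Agent.Helper95.BG Pool.Agent.Helper31.RG Finset

/-- The points of the range `l`, in increasing order: the left end, the cuts, the right end. -/
def Q (r N e c l : ℕ) : ℕ → ℕ
  | 0 => dig N e (2 * l)
  | i + 1 => if i < r then dig N c (l * r + i) else dig N e (2 * l + 1)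

section

variable {k r b N e c l : ℕ}

theorem Q_succ (r N e c l i : ℕ) : Q r N e c l (i + 1) =
    if i < r then dig N c (l * r + i) else dig N e (2 * l + 1) := rfl

theorem pt_lD (hl : l < k) {i : ℕ} (hi : i ≤ r) :
    pt k N e c (lD k r (l * (r + 1) + i)) = Q r N e c l i := by
  have h1 : (l * (r + 1) + i) / (r + 1) = l := by
    rw [mul_comm, Nat.mul_add_div (Nat.succ_pos r), Nat.div_eq_of_lt (Nat.lt_succ_of_le hi),
      add_zero]
  have h2 : (l * (r + 1) + i) % (r + 1) = i := by
    rw [mul_comm, Nat.mul_add_mod, Nat.mod_eq_of_lt (Nat.lt_succ_of_le hi)]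
  unfold lD
  rw [h1, h2]
  cases i with
  | zero =>
    rw [Helper31.RG.ifz_zero, pt_left (by omega)]
    rfl
  | succ i =>
    rw [ifz_pos (Nat.succ_ne_zero i), pt_right (by omega)]
    rw [Q_succ, if_pos (by omega)]
    congr 1
    omega

theorem pt_rD (hl : l < k) {i : ℕ} (hi : i ≤ r) :
    pt k N e c (rD k r (l * (r + 1) + i)) = Q r N e c l (i + 1) := by
  have h1 : (l * (r + 1) + i) / (r + 1) = l := by
    rw [mul_comm, Nat.mul_add_div (Nat.succ_pos r), Nat.div_eq_of_lt (Nat.lt_succ_of_le hi),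
      add_zero]
  have h2 : (l * (r + 1) + i) % (r + 1) = i := by
    rw [mul_comm, Nat.mul_add_mod, Nat.mod_eq_of_lt (Nat.lt_succ_of_le hi)]
  unfold rD
  rw [h1, h2]
  rw [Q_succ]
  by_cases h : i < r
  · rw [ifz_pos (by omega), pt_right (by omega), if_pos h]
    congr 1
    omega
  · have h3 : r - i = 0 := by omega
    rw [h3, Helper31.RG.ifz_zero, pt_left (by omega), if_neg h]

theorem vldB_le (h : vldB k r N e c = 0) {p : ℕ} (hp : p < k * (r + 1)) :
    pt k N e c (lD k r p) ≤ pt k N e c (rD k r p) := by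
  unfold vldB at h
  exact (lt01_eq_zero _ _).1 ((sum_eq_zero_iff.1 h) p (mem_range.2 hp))

theorem piece_lt (hl : l < k) {i : ℕ} (hi : i ≤ r) : l * (r + 1) + i < k * (r + 1) := by
  have h1 : (l + 1) * (r + 1) ≤ k * (r + 1) := Nat.mul_le_mul_right _ hl
  rw [Nat.succ_mul] at h1
  omega

theorem Q_mono (h : vldB k r N e c = 0) (hl : l < k) : Monotone (Q r N e c l) := by
  refine monotone_nat_of_le_succ fun i => ?_
  by_cases hi : i ≤ r
  · rw [← pt_lD hl hi, ← pt_rD hl hi]
    exact vldB_le h (piece_lt hl hi)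
  · cases i with
    | zero => omega
    | succ i =>
      rw [Q_succ, Q_succ, if_neg (by omega), if_neg (by omega)]

/-- The length of the piece in blocks. -/
def dd (k r b N e c : ℕ) (l : Fin k) (i : Fin (r + 1)) : ℕ :=
  Q r N e c l (i + 1) / b - Q r N e c l i / b

theorem div_mono (h : vldB k r N e c = 0) (hl : l < k) :
    Monotone fun i => Q r N e c l i / b :=
  fun _ _ hij => Nat.div_le_div_right (Q_mono h hl hij)

theorem sum_dd (h : vldB k r N e c = 0) (l : Fin k) :
    ∑ i, dd k r b N e c l i = dig N e (2 * l + 1) / b - dig N e (2 * l) / b := by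
  have h1 : ∑ i, dd k r b N e c l i =
      ∑ i ∈ range (r + 1), (Q r N e c l (i + 1) / b - Q r N e c l i / b) :=
    Fin.sum_univ_eq_sum_range (fun i => Q r N e c l (i + 1) / b - Q r N e c l i / b) (r + 1)
  rw [h1, Finset.sum_range_tsub (div_mono h l.2)]
  have h2 : Q r N e c l (r + 1) = dig N e (2 * l + 1) := by
    rw [Q_succ, if_neg (lt_irrefl r)]
  have h3 : Q r N e c l 0 = dig N e (2 * l) := rfl
  rw [h2, h3]

theorem pot_e (h : vldB k r N e c = 0) :
    pot k b N e = ∑ l, wt k (∑ i, dd k r b N e c l i) := by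
  unfold pot
  rw [← Fin.sum_univ_eq_sum_range
    (fun l => wt k (dig N e (2 * l + 1) / b - dig N e (2 * l) / b)) k]
  exact sum_congr rfl fun l _ => by rw [sum_dd h l]

theorem sel_even (π j : ℕ) : sel k r π (2 * j) =
    if dig (k * (r + 1) + 1) π j < k * (r + 1) then lD k r (dig (k * (r + 1) + 1) π j) else 0 := by
  have h1 : 2 * j / 2 = j := by omega
  have h2 : 2 * j % 2 = 0 := by omega
  unfold sel
  rw [ifz_lt01, h1, h2, Helper31.RG.ifz_zero]

theorem sel_odd (π j : ℕ) : sel k r π (2 * j + 1) =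
    if dig (k * (r + 1) + 1) π j < k * (r + 1) then rD k r (dig (k * (r + 1) + 1) π j) else 0 := by
  have h1 : (2 * j + 1) / 2 = j := by omega
  have h2 : (2 * j + 1) % 2 = 1 := by omega
  unfold sel
  rw [ifz_lt01, h1, h2, ifz_pos one_ne_zero]

theorem patt_pos {π : ℕ} {j : Fin k} (h : dig (k * (r + 1) + 1) π j / (r + 1) < k) :
    patt k r π j = some (⟨dig (k * (r + 1) + 1) π j / (r + 1), h⟩,
      ⟨dig (k * (r + 1) + 1) π j % (r + 1), Nat.mod_lt _ (Nat.succ_pos r)⟩) := by
  unfold patt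
  exact dif_pos h

theorem patt_neg {π : ℕ} {j : Fin k} (h : ¬ dig (k * (r + 1) + 1) π j / (r + 1) < k) :
    patt k r π j = none := by
  unfold patt
  exact dif_neg h

theorem pot_y (hN : 0 < N) (π : ℕ) : pot k b N (yN k r N e c π) =
    ∑ j, wt k ((patt k r π j).elim 0 fun a => dd k r b N e c a.1 a.2) := by
  unfold pot
  rw [← Fin.sum_univ_eq_sum_range (fun l => wt k (dig N (yN k r N e c π) (2 * l + 1) / b -
    dig N (yN k r N e c π) (2 * l) / b)) k]
  refine sum_congr rfl fun j _ => ?_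
  congr 1
  have hj := j.2
  rw [dig_yN hN (by omega), dig_yN hN (by omega), sel_even, sel_odd]
  by_cases hs : dig (k * (r + 1) + 1) π j < k * (r + 1)
  · have hs' : dig (k * (r + 1) + 1) π j / (r + 1) < k :=
      (Nat.div_lt_iff_lt_mul (Nat.succ_pos r)).2 hs
    rw [if_pos hs, if_pos hs, patt_pos hs']
    have hi : dig (k * (r + 1) + 1) π j % (r + 1) ≤ r :=
      Nat.lt_succ_iff.1 (Nat.mod_lt _ (Nat.succ_pos r))
    have h1 := pt_lD (k := k) (N := N) (e := e) (c := c) hs' hi
    have h2 := pt_rD (k := k) (N := N) (e := e) (c := c) hs' hi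
    have h3 : dig (k * (r + 1) + 1) π j / (r + 1) * (r + 1) +
        dig (k * (r + 1) + 1) π j % (r + 1) = dig (k * (r + 1) + 1) π j := by
      rw [mul_comm]
      exact Nat.div_add_mod _ _
    rw [h3] at h1 h2
    rw [h1, h2]
    rfl
  · have hs' : ¬ dig (k * (r + 1) + 1) π j / (r + 1) < k := fun h =>
      hs ((Nat.div_lt_iff_lt_mul (Nat.succ_pos r)).1 h)
    rw [if_neg hs, if_neg hs, patt_neg hs', Nat.sub_self]
    rfl

theorem inj_patt {π : ℕ} (h : injB k r π = 0) : Inj (patt k r π) := by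
  rw [injB_eq_zero] at h
  intro i j a hi hj
  by_cases h1 : dig (k * (r + 1) + 1) π i / (r + 1) < k
  · by_cases h2 : dig (k * (r + 1) + 1) π j / (r + 1) < k
    · rw [patt_pos h1] at hi
      rw [patt_pos h2, ← hi] at hj
      have h3 := Option.some.inj hj
      have h4 := congrArg (fun x => x.1.val) h3
      have h5 := congrArg (fun x => x.2.val) h3
      simp only at h4 h5
      have h6 : dig (k * (r + 1) + 1) π i = dig (k * (r + 1) + 1) π j := by
        rw [← Nat.div_add_mod (dig (k * (r + 1) + 1) π i) (r + 1),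
          ← Nat.div_add_mod (dig (k * (r + 1) + 1) π j) (r + 1), h4, h5]
      exact Fin.ext (h i i.2 j j.2 ((Nat.div_lt_iff_lt_mul (Nat.succ_pos r)).1 h1) h6)
    · rw [patt_neg h2] at hj
      cases hj
  · rw [patt_neg h1] at hi
    cases hi

theorem Q_cut {t : ℕ} (ht : t < k * r) : Q r N e c (t / r) (t % r + 1) = dig N c t := by
  have hr : 0 < r := by
    rcases Nat.eq_zero_or_pos r with h | h
    · rw [h, mul_zero] at ht
      omega
    · exact h
  rw [Q_succ, if_pos (Nat.mod_lt _ hr), mul_comm, Nat.div_add_mod]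

theorem exists_piece {f : ℕ → ℕ} (hf : Monotone f) : ∀ {u v : ℕ}, u ≤ v → f u < f v →
    ∃ i, u ≤ i ∧ i < v ∧ f (i + 1) - f i ≠ 0 := by
  intro u v huv h
  by_contra hcon
  push Not at hcon
  have key : ∀ j, u ≤ j → j ≤ v → f j = f u := by
    intro j hj
    induction j, hj using Nat.le_induction with
    | base => intro _; rfl
    | succ j hj ih =>
      intro h1
      have h2 := ih (by omega)
      have h3 := hcon j hj (by omega)
      have h4 := hf (Nat.le_succ j)
      rw [Nat.succ_eq_add_one] at h4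
      omega
  have := key v huv le_rfl
  omega

end

theorem thm (habs : G_ABS) : G_GEO := by
  intro k r b N e c hN hv
  have hkr : ∀ t, t < k * r → t / r < k := fun t ht =>
    Nat.div_lt_of_lt_mul (by rwa [mul_comm] at ht)
  have hrp : ∀ t, t < k * r → 0 < r := fun t ht => by
    rcases Nat.eq_zero_or_pos r with h | h
    · rw [h, mul_zero] at ht
      omega
    · exact h
  have hlast : ∀ l, Q r N e c l (r + 1) = dig N e (2 * l + 1) := fun l => by
    rw [Q_succ, if_neg (lt_irrefl r)]
  refine ⟨fun π hπ => ?_, fun π hπ hfar => ?_, fun t ht => ?_⟩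
  · rw [pot_y hN, pot_e hv]
    exact (habs k r (dd k r b N e c) (patt k r π) (inj_patt hπ)).1
  · rw [pot_y hN, pot_e hv]
    by_contra hcon
    have h1 := (habs k r (dd k r b N e c) (patt k r π) (inj_patt hπ)).2 (not_lt.1 hcon)
    unfold farN at hfar
    obtain ⟨t, ht, h2⟩ := Finset.exists_ne_zero_of_sum_ne_zero hfar
    rw [mem_range] at ht
    have h3 : dig N e (2 * (t / r)) / b < dig N c t / b := by
      by_contra h
      exact h2 (by rw [(lt01_eq_zero _ _).2 (not_lt.1 h), zero_mul])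
    have h4 : dig N c t / b < dig N e (2 * (t / r) + 1) / b := by
      by_contra h
      exact h2 (by rw [(lt01_eq_zero _ _).2 (not_lt.1 h), mul_zero])
    have hl := hkr t ht
    have hir : t % r < r := Nat.mod_lt _ (hrp t ht)
    have hm := div_mono (b := b) hv hl
    rw [← Q_cut (N := N) (e := e) (c := c) ht] at h3 h4
    rw [← hlast] at h4
    have h3' : Q r N e c (t / r) 0 / b < Q r N e c (t / r) (t % r + 1) / b := h3
    obtain ⟨i, -, hi, hdi⟩ := exists_piece hm (Nat.zero_le _) h3'
    obtain ⟨j, hj, hj', hdj⟩ := exists_piece hm (by omega : t % r + 1 ≤ r + 1) h4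
    have e1 := h1 ⟨t / r, hl⟩ ⟨i, by omega⟩ hdi
    have e2 := h1 ⟨t / r, hl⟩ ⟨j, hj'⟩ hdj
    have hne : (⟨i, by omega⟩ : Fin (r + 1)) ≠ ⟨j, hj'⟩ := fun h => by
      have := congrArg Fin.val h
      simp only at this
      omega
    have h5 : dd k r b N e c ⟨t / r, hl⟩ ⟨i, by omega⟩ + dd k r b N e c ⟨t / r, hl⟩ ⟨j, hj'⟩ ≤
        ∑ i, dd k r b N e c ⟨t / r, hl⟩ i := by
      rw [← Finset.sum_pair hne]
      exact Finset.sum_le_sum_of_subset (Finset.subset_univ _)
    have h6 : dd k r b N e c ⟨t / r, hl⟩ ⟨i, by omega⟩ ≠ 0 := hdi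
    omega
  · have hl := hkr t ht
    have hir : t % r < r := Nat.mod_lt _ (hrp t ht)
    have hm := Q_mono (N := N) (e := e) (c := c) hv hl
    have h1 : dig N e (2 * (t / r)) ≤ dig N c t := by
      have := hm (Nat.zero_le (t % r + 1))
      rwa [Q_cut ht] at this
    have h2 : dig N c t ≤ dig N e (2 * (t / r) + 1) := by
      have := hm (by omega : t % r + 1 ≤ r + 1)
      rwa [Q_cut ht, hlast] at this
    refine ⟨h1, h2, fun hfar => ?_⟩
    unfold farN at hfar
    have h3 := (sum_eq_zero_iff.1 hfar) t (mem_range.2 ht)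
    have h1' := Nat.div_le_div_right (c := b) h1
    have h2' := Nat.div_le_div_right (c := b) h2
    rcases Nat.mul_eq_zero.1 h3 with h4 | h4
    · rw [lt01_eq_zero] at h4
      exact Or.inl (le_antisymm h4 h1')
    · rw [lt01_eq_zero] at h4
      exact Or.inr (le_antisymm h2' h4)

end Pool.Agent.Helper22.RG.PkGEO
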